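import Pool.Agent.helper95.PY2.Spec

/-! Row `py2:LOW`. -/

set_option autoImplicit false

open Finset

namespace Pool.Agent.PY2

theorem LOW_ps (p : ℕ) [Fact p.Prime] (k : ℕ) :
    (ps ((k : ℕ) : ZMod p)).re = Real.cos (2 * Real.pi * k / p) := by
  unfold ps
  have h := ZMod.stdAddChar_coe (N := p) (k : ℤ)
  rw [Int.cast_natCast] at h
  rw [h, Complex.exp_re]
  have hre : (2 * (Real.pi : ℂ) * Complex.I * ((k : ℤ) : ℂ) / (p : ℂ)).re = 0 := by
    have : (2 * (Real.pi : ℂ) * Complex.I * ((k : ℤ) : ℂ) / (p : ℂ)) =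
        ((2 * Real.pi * k / p : ℝ) : ℂ) * Complex.I := by
      push_cast
      ring
    rw [this, Complex.re_ofReal_mul, Complex.I_re, mul_zero]
  have him : (2 * (Real.pi : ℂ) * Complex.I * ((k : ℤ) : ℂ) / (p : ℂ)).im = 2 * Real.pi * k / p := by
    have : (2 * (Real.pi : ℂ) * Complex.I * ((k : ℤ) : ℂ) / (p : ℂ)) =
        ((2 * Real.pi * k / p : ℝ) : ℂ) * Complex.I := by
      push_cast
      ring
    rw [this, Complex.im_ofReal_mul, Complex.I_im, mul_one]
  rw [hre, him, Real.exp_zero, one_mul]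

theorem LOW : LOW_stmt := by
  intro p hp R n h
  have hp0 : (0 : ℝ) < p := by exact_mod_cast hp.out.pos
  have key : ∀ r ∈ range R, (1 : ℝ) / 2 ≤ (ps ((r : ZMod p) * (n : ZMod p))).re := by
    intro r hr
    have hrR : r < R := Finset.mem_range.1 hr
    rw [← Nat.cast_mul, LOW_ps]
    have h6 : 6 * ((r * n : ℕ) : ℝ) ≤ p := by
      have : 6 * (r * n) ≤ p := le_trans (Nat.mul_le_mul_left 6 (Nat.mul_le_mul_right n hrR.le)) h
      exact_mod_cast this
    rw [← Real.cos_pi_div_three]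
    have hx : 2 * Real.pi * ((r * n : ℕ) : ℝ) / p ≤ Real.pi / 3 := by
      rw [div_le_div_iff₀ hp0 (by norm_num)]
      nlinarith [Real.pi_pos, h6, mul_le_mul_of_nonneg_left h6 Real.pi_pos.le]
    apply Real.cos_le_cos_of_nonneg_of_le_pi _ _ hx
    · have := Real.pi_pos
      positivity
    · linarith [Real.pi_pos]
  have hsum : (R : ℝ) * (1 / 2) ≤ (∑ r ∈ range R, ps ((r : ZMod p) * (n : ZMod p))).re := by
    rw [Complex.re_sum]
    calc (R : ℝ) * (1 / 2) = ∑ r ∈ range R, (1 / 2 : ℝ) := by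
          rw [Finset.sum_const, Finset.card_range, nsmul_eq_mul]
      _ ≤ _ := Finset.sum_le_sum key
  have := Complex.re_le_norm (∑ r ∈ range R, ps ((r : ZMod p) * (n : ZMod p)))
  linarith

end Pool.Agent.PY2
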